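import Mathlib

/-!
# Avoiding a pattern on new coordinates

`V` depends only on the coordinates in `E`, `T` is disjoint from `E`: the map `x ↦ (p on T, x elsewhere)` sends `V` into the
part of `V` where `x = p` on `T`, and at most `3 ^ |T|` elements have the same image. So that part has at least
`|V| / 3 ^ |T|` elements.
-/

set_option autoImplicit false

namespace Pool.Agent.AS36

open Finset

theorem avoid {n : ℕ} (V : Finset (Fin n → ZMod 3)) (E T : Finset (Fin n)) (hET : Disjoint E T)
    (hV : ∀ x y : Fin n → ZMod 3, (∀ i ∈ E, x i = y i) → x ∈ V → y ∈ V) (p : Fin n → ZMod 3) :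
    ((V.filter (fun x => ¬ ∀ i ∈ T, x i = p i)).card : ℝ) ≤
      V.card * (1 - ((3 : ℝ) ^ T.card)⁻¹) := by
  classical
  obtain ⟨W, hW⟩ : ∃ W : Finset (Fin n → ZMod 3), W = V.filter (fun x => ∀ i ∈ T, x i = p i) :=
    ⟨_, rfl⟩
  have hsum : W.card + (V.filter (fun x => ¬ ∀ i ∈ T, x i = p i)).card = V.card := by
    rw [hW]
    exact Finset.card_filter_add_card_filter_not _
  let f : (Fin n → ZMod 3) → (Fin n → ZMod 3) := fun x i => if i ∈ T then p i else x i
  have hmaps : ∀ x ∈ V, f x ∈ W := by
    intro x hx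
    rw [hW, mem_filter]
    refine ⟨hV x (f x) (fun i hi => ?_) hx, fun i hi => if_pos hi⟩
    have : i ∉ T := Finset.disjoint_left.1 hET hi
    exact (if_neg this).symm
  have hfib : ∀ w ∈ W, (V.filter fun x => f x = w).card ≤ 3 ^ T.card := by
    intro w _
    have h1 : (V.filter fun x => f x = w).card ≤ Fintype.card (T → ZMod 3) := by
      rw [← Finset.card_univ]
      refine Finset.card_le_card_of_injOn (fun x i => x i.1) (fun x _ => Finset.mem_univ _) ?_
      intro x hx y hy hxy
      have hx' := (mem_filter.1 (Finset.mem_coe.1 hx)).2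
      have hy' := (mem_filter.1 (Finset.mem_coe.1 hy)).2
      funext i
      by_cases hi : i ∈ T
      · exact congrFun hxy ⟨i, hi⟩
      · have h2 := congrFun (hx'.trans hy'.symm) i
        simp only [f, if_neg hi] at h2
        exact h2
    rw [Fintype.card_fun, ZMod.card, Fintype.card_coe] at h1
    exact h1
  have hle := Finset.card_le_mul_card_image_of_maps_to hmaps (3 ^ T.card) hfib
  have h3 : (0 : ℝ) < 3 ^ T.card := by positivity
  have hle' : (V.card : ℝ) ≤ 3 ^ T.card * W.card := by exact_mod_cast hle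
  have h4 : (V.card : ℝ) * ((3 : ℝ) ^ T.card)⁻¹ ≤ W.card := by
    rw [← div_eq_mul_inv, div_le_iff₀ h3]
    linarith
  have h5 : (W.card : ℝ) + ((V.filter (fun x => ¬ ∀ i ∈ T, x i = p i)).card : ℝ) = V.card := by
    exact_mod_cast hsum
  rw [mul_sub, mul_one]
  linarith

end Pool.Agent.AS36
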