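import Mathlib

/-!
# A progression inside a level set (STUB)

`u i a = w i (a + 1) - w i a`, `v i = (u i 0, u i 1)`. Take `d = 1` on `D 0 ∪ D 1 ∪ D 2` and `0` elsewhere. With
`U b = ∑ i ∈ D 0, u i b` (the same for `D 1`, `D 2`; for `b = 2` because `u i 0 + u i 1 + u i 2 = 0`):
`f (x + d) - f x = U 0 + U 1 + U 2 = 0`, `f (x + 2 d) - f (x + d) = U 1 + U 2 + U 0 = 0`.
-/

set_option autoImplicit false

namespace Pool.Agent.AS36

open Finset

/-- The weights of the steps `0 → 1` and `1 → 2` at the coordinate `i`. -/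
def vv {n : ℕ} {G : Type} [AddCommGroup G] (w : Fin n → ZMod 3 → G) (i : Fin n) : G × G :=
  (w i 1 - w i 0, w i 2 - w i 1)

theorem prog_sum {n : ℕ} {G : Type} [AddCommGroup G] (w : Fin n → ZMod 3 → G)
    (D : Fin 3 → Finset (Fin n)) (hdis : ∀ a b, a ≠ b → Disjoint (D a) (D b))
    (x : Fin n → ZMod 3) (hx : ∀ a : Fin 3, ∀ i ∈ D a, x i = ((a : ℕ) : ZMod 3)) (c : ZMod 3) :
    ∑ i, w i (x i + if i ∈ univ.biUnion D then c else 0) - ∑ i, w i (x i) =
      ∑ a : Fin 3, ∑ i ∈ D a, (w i (((a : ℕ) : ZMod 3) + c) - w i ((a : ℕ) : ZMod 3)) := by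
  rw [← sum_sub_distrib]
  have h1 : ∑ i, (w i (x i + if i ∈ univ.biUnion D then c else 0) - w i (x i)) =
      ∑ i ∈ univ.biUnion D, (w i (x i + if i ∈ univ.biUnion D then c else 0) - w i (x i)) := by
    symm
    refine sum_subset (subset_univ _) fun i _ hi => ?_
    rw [if_neg hi, add_zero, sub_self]
  rw [h1, sum_biUnion (fun a _ b _ hab => hdis a b hab)]
  refine sum_congr rfl fun a _ => sum_congr rfl fun i hi => ?_
  rw [if_pos (mem_biUnion.2 ⟨a, mem_univ _, hi⟩), hx a i hi]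

theorem prog {n : ℕ} {G : Type} [AddCommGroup G] (w : Fin n → ZMod 3 → G)
    (D : Fin 3 → Finset (Fin n)) (hdis : ∀ a b, a ≠ b → Disjoint (D a) (D b))
    (hne : ∀ a, (D a).Nonempty) (hv : ∀ a b, ∑ i ∈ D a, vv w i = ∑ i ∈ D b, vv w i)
    (x : Fin n → ZMod 3) (hx : ∀ a : Fin 3, ∀ i ∈ D a, x i = ((a : ℕ) : ZMod 3)) :
    ∃ d : Fin n → ZMod 3, (∀ i, d i = 0 ∨ d i = 1) ∧ d ≠ 0 ∧
      ∑ i, w i ((x + d) i) = ∑ i, w i (x i) ∧ ∑ i, w i ((x + 2 • d) i) = ∑ i, w i (x i)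
 := by
  have hf : ∀ a b, ∑ i ∈ D a, (w i 1 - w i 0) = ∑ i ∈ D b, (w i 1 - w i 0) := by
    intro a b
    have h := congrArg Prod.fst (hv a b)
    rw [Prod.fst_sum, Prod.fst_sum] at h
    exact h
  have hs : ∀ a b, ∑ i ∈ D a, (w i 2 - w i 1) = ∑ i ∈ D b, (w i 2 - w i 1) := by
    intro a b
    have h := congrArg Prod.snd (hv a b)
    rw [Prod.snd_sum, Prod.snd_sum] at h
    exact h
  refine ⟨fun i => if i ∈ univ.biUnion D then 1 else 0, fun i => ?_, ?_, ?_, ?_⟩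
  · by_cases h : i ∈ univ.biUnion D
    · right
      exact if_pos h
    · left
      exact if_neg h
  · intro h
    obtain ⟨i, hi⟩ := hne 0
    have h1 := congrFun h i
    have h2 : (if i ∈ univ.biUnion D then (1 : ZMod 3) else 0) = 0 := h1
    rw [if_pos (mem_biUnion.2 ⟨0, mem_univ _, hi⟩)] at h2
    exact absurd h2 (by decide)
  · have h := prog_sum w D hdis x hx 1
    rw [Fin.sum_univ_three] at h
    have e0 : ((((0 : Fin 3) : ℕ) : ZMod 3)) = 0 := by decide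
    have e1 : ((((1 : Fin 3) : ℕ) : ZMod 3)) = 1 := by decide
    have e2 : ((((2 : Fin 3) : ℕ) : ZMod 3)) = 2 := by decide
    have e3 : (0 : ZMod 3) + 1 = 1 := by decide
    have e4 : (1 : ZMod 3) + 1 = 2 := by decide
    have e5 : (2 : ZMod 3) + 1 = 0 := by decide
    rw [e0, e1, e2, e3, e4, e5] at h
    have h6 : ∑ i ∈ D 2, (w i 0 - w i 2) =
        -(∑ i ∈ D 2, (w i 1 - w i 0) + ∑ i ∈ D 2, (w i 2 - w i 1)) := by
      rw [← sum_add_distrib, ← sum_neg_distrib]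
      refine sum_congr rfl fun i _ => ?_
      abel
    rw [h6, hf 2 0, hs 2 1] at h
    have h7 : ∑ i ∈ D 0, (w i 1 - w i 0) + ∑ i ∈ D 1, (w i 2 - w i 1) +
        -(∑ i ∈ D 0, (w i 1 - w i 0) + ∑ i ∈ D 1, (w i 2 - w i 1)) = 0 := by abel
    rw [h7] at h
    exact sub_eq_zero.1 h
  · have h := prog_sum w D hdis x hx 2
    rw [Fin.sum_univ_three] at h
    have e0 : ((((0 : Fin 3) : ℕ) : ZMod 3)) = 0 := by decide
    have e1 : ((((1 : Fin 3) : ℕ) : ZMod 3)) = 1 := by decide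
    have e2 : ((((2 : Fin 3) : ℕ) : ZMod 3)) = 2 := by decide
    have e3 : (0 : ZMod 3) + 2 = 2 := by decide
    have e4 : (1 : ZMod 3) + 2 = 0 := by decide
    have e5 : (2 : ZMod 3) + 2 = 1 := by decide
    rw [e0, e1, e2, e3, e4, e5] at h
    have h5 : ∑ i ∈ D 0, (w i 2 - w i 0) =
        ∑ i ∈ D 0, (w i 1 - w i 0) + ∑ i ∈ D 0, (w i 2 - w i 1) := by
      rw [← sum_add_distrib]
      refine sum_congr rfl fun i _ => ?_
      abel
    have h6 : ∑ i ∈ D 1, (w i 0 - w i 1) = -(∑ i ∈ D 1, (w i 1 - w i 0)) := by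
      rw [← sum_neg_distrib]
      refine sum_congr rfl fun i _ => ?_
      abel
    have h7 : ∑ i ∈ D 2, (w i 1 - w i 2) = -(∑ i ∈ D 2, (w i 2 - w i 1)) := by
      rw [← sum_neg_distrib]
      refine sum_congr rfl fun i _ => ?_
      abel
    rw [h5, h6, h7, hf 1 0, hs 2 0] at h
    have h8 : ∑ i ∈ D 0, (w i 1 - w i 0) + ∑ i ∈ D 0, (w i 2 - w i 1) +
        -(∑ i ∈ D 0, (w i 1 - w i 0)) + -(∑ i ∈ D 0, (w i 2 - w i 1)) = 0 := by abel
    rw [h8] at h
    have h9 : ∑ i, w i (x i + if i ∈ univ.biUnion D then 2 else 0) =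
        ∑ i, w i ((x + 2 • (fun i => if i ∈ univ.biUnion D then (1 : ZMod 3) else 0)) i) := by
      refine sum_congr rfl fun i _ => ?_
      congr 1
      show _ = x i + 2 • (if i ∈ univ.biUnion D then (1 : ZMod 3) else 0)
      by_cases hi : i ∈ univ.biUnion D
      · rw [if_pos hi, if_pos hi]
        rfl
      · rw [if_neg hi, if_neg hi, smul_zero]
    rw [h9] at h
    exact sub_eq_zero.1 h

end Pool.Agent.AS36
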