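import Pool.Agent.AS36.Triple
import Pool.Agent.AS36.Prog
import Pool.Agent.AS36.Count

/-!
# Free unions of level sets of an additive statistic

Greedy induction: after `m` triples of sets of coordinates there is a set `V ⊇ A` of at most `3^n (1 - 27^(-s))^m` vectors which
depends on at most `3 s m` coordinates only.
-/

set_option autoImplicit false

namespace Pool.Agent.AS36

open Finset

/-- No progression `x, x + d, x + 2d` with `d` a nonzero zero-one vector. -/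
def Free {n : ℕ} (A : Finset (Fin n → ZMod 3)) : Prop :=
  ∀ x d : Fin n → ZMod 3, (∀ i, d i = 0 ∨ d i = 1) → d ≠ 0 →
    ¬ (x ∈ A ∧ x + d ∈ A ∧ x + 2 • d ∈ A)

theorem num {n s Q N : ℕ} (hs : 1 ≤ s) (hQ : 1 ≤ Q) (hn : Q * (6 * s ^ 2) ^ s < n ^ s)
    (hN : n ≤ 2 * N) : Q * (2 * s ^ 2) ^ s < (N + 1 - s) ^ s := by
  have h6 : 6 * s ^ 2 < n := by
    by_contra hcon
    push Not at hcon
    have h1 : n ^ s ≤ (6 * s ^ 2) ^ s := Nat.pow_le_pow_left hcon s
    have h2 : (6 * s ^ 2) ^ s ≤ Q * (6 * s ^ 2) ^ s := Nat.le_mul_of_pos_left _ hQ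
    omega
  have hss : s ≤ s ^ 2 := by nlinarith
  have h3 : n ≤ 3 * (N + 1 - s) := by omega
  have h4 : n ^ s ≤ 3 ^ s * (N + 1 - s) ^ s := by
    rw [← mul_pow]
    exact Nat.pow_le_pow_left h3 s
  have h5 : (6 * s ^ 2) ^ s = 3 ^ s * (2 * s ^ 2) ^ s := by
    rw [← mul_pow]
    congr 1
    ring
  rw [h5] at hn
  have h7 : 3 ^ s * (Q * (2 * s ^ 2) ^ s) < 3 ^ s * (N + 1 - s) ^ s := by
    calc 3 ^ s * (Q * (2 * s ^ 2) ^ s) = Q * (3 ^ s * (2 * s ^ 2) ^ s) := by ring
      _ < n ^ s := hn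
      _ ≤ _ := h4
  exact lt_of_mul_lt_mul_left h7 (Nat.zero_le _)

theorem greedy {n s : ℕ} (hs : 1 ≤ s) {G : Type} [AddCommGroup G] [Fintype G]
    (w : Fin n → ZMod 3 → G) (A : Finset (Fin n → ZMod 3)) (hA : Free A)
    (hw : ∀ x y : Fin n → ZMod 3, ∑ i, w i (x i) = ∑ i, w i (y i) → x ∈ A → y ∈ A)
    (hn : Fintype.card G ^ 2 * (6 * s ^ 2) ^ s < n ^ s) :
    ∀ m : ℕ, 6 * s * m ≤ n → ∃ (V : Finset (Fin n → ZMod 3)) (E : Finset (Fin n)),
      A ⊆ V ∧ E.card ≤ 3 * s * m ∧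
      (∀ x y : Fin n → ZMod 3, (∀ i ∈ E, x i = y i) → x ∈ V → y ∈ V) ∧
      (V.card : ℝ) ≤ 3 ^ n * (1 - ((27 : ℝ) ^ s)⁻¹) ^ m := by
  classical
  intro m
  induction m with
  | zero =>
    intro _
    refine ⟨univ, ∅, subset_univ _, by simp, fun _ _ _ _ => mem_univ _, ?_⟩
    rw [card_univ, Fintype.card_fun, ZMod.card, Fintype.card_fin, pow_zero, mul_one]
    push_cast
    exact le_rfl
  | succ m ih =>
    intro hm
    have hm' : 6 * s * m + 6 * s ≤ n := by
      rw [Nat.mul_succ] at hm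
      exact hm
    obtain ⟨V, E, hAV, hE, hV, hVc⟩ := ih (by omega)
    have hEn : E.card ≤ n := by
      have := card_le_univ E
      rwa [Fintype.card_fin] at this
    have hS : (Eᶜ : Finset (Fin n)).card = n - E.card := by
      rw [card_compl, Fintype.card_fin]
    have h3sm : 2 * (3 * s * m) = 6 * s * m := by ring
    have hN : n ≤ 2 * (Eᶜ : Finset (Fin n)).card := by
      rw [hS]
      omega
    have hQ : Fintype.card (G × G) = Fintype.card G ^ 2 := by
      rw [Fintype.card_prod, sq]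
    have hG : 1 ≤ Fintype.card G := Fintype.card_pos
    have hnum := num (Q := Fintype.card G ^ 2) hs (Nat.one_le_pow _ _ hG) hn hN
    rw [← hQ] at hnum
    obtain ⟨D, hDS, hdis, hne, hcard, hsum⟩ := triple (vv w) (Eᶜ : Finset (Fin n)) s hs hnum
    set T : Finset (Fin n) := D 0 ∪ D 1 ∪ D 2 with hT
    have hTS : T ⊆ Eᶜ := union_subset (union_subset (hDS 0) (hDS 1)) (hDS 2)
    have hET : Disjoint E T := by
      rw [disjoint_left]
      intro i hi hiT
      exact (mem_compl.1 (hTS hiT)) hi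
    have hTc : T.card ≤ 3 * s := by
      have h1 := card_union_le (D 0 ∪ D 1) (D 2)
      have h2 := card_union_le (D 0) (D 1)
      have := hcard 0
      have := hcard 1
      have := hcard 2
      rw [hT]
      omega
    let p : Fin n → ZMod 3 := fun i => if i ∈ D 1 then 1 else if i ∈ D 2 then 2 else 0
    have hp : ∀ a : Fin 3, ∀ i ∈ D a, p i = ((a : ℕ) : ZMod 3) := by
      intro a i hi
      fin_cases a
      · have h1 : i ∉ D 1 := fun h => disjoint_left.1 (hdis 0 1 (by decide)) hi h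
        have h2 : i ∉ D 2 := fun h => disjoint_left.1 (hdis 0 2 (by decide)) hi h
        simp [p, h1, h2]
      · have h1 : i ∈ D 1 := hi
        simp [p, h1]
      · have h1 : i ∉ D 1 := fun h => disjoint_left.1 (hdis 1 2 (by decide)) h hi
        have h2 : i ∈ D 2 := hi
        simp [p, h1, h2]
    refine ⟨V.filter (fun x => ¬ ∀ i ∈ T, x i = p i), E ∪ T, ?_, ?_, ?_, ?_⟩
    · intro x hx
      refine mem_filter.2 ⟨hAV hx, fun hxT => ?_⟩
      have hx' : ∀ a : Fin 3, ∀ i ∈ D a, x i = ((a : ℕ) : ZMod 3) := by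
        intro a i hi
        rw [← hp a i hi]
        apply hxT
        rw [hT, mem_union, mem_union]
        fin_cases a
        · exact Or.inl (Or.inl hi)
        · exact Or.inl (Or.inr hi)
        · exact Or.inr hi
      obtain ⟨d, hd, hd0, e1, e2⟩ := prog w D hdis hne hsum x hx'
      exact hA x d hd hd0 ⟨hx, hw x (x + d) e1.symm hx, hw x (x + 2 • d) e2.symm hx⟩
    · have := card_union_le E T
      rw [Nat.mul_succ]
      omega
    · intro x y hxy hx
      obtain ⟨hx1, hx2⟩ := mem_filter.1 hx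
      refine mem_filter.2 ⟨hV x y (fun i hi => hxy i (mem_union_left _ hi)) hx1, fun hy => ?_⟩
      exact hx2 fun i hi => (hxy i (mem_union_right _ hi)).trans (hy i hi)
    · refine (avoid V E T hET hV p).trans ?_
      have h27 : (27 : ℝ) ^ s = 3 ^ (3 * s) := by
        rw [pow_mul]
        norm_num
      have h1 : ((27 : ℝ) ^ s)⁻¹ ≤ ((3 : ℝ) ^ T.card)⁻¹ := by
        rw [h27]
        apply inv_anti₀ (by positivity)
        exact pow_le_pow_right₀ (by norm_num) hTc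
      have h2 : 0 ≤ 1 - ((3 : ℝ) ^ T.card)⁻¹ := by
        have : ((3 : ℝ) ^ T.card)⁻¹ ≤ 1 := inv_le_one_of_one_le₀ (one_le_pow₀ (by norm_num))
        linarith
      have h3 : (0 : ℝ) ≤ 3 ^ n * (1 - ((27 : ℝ) ^ s)⁻¹) ^ m :=
        le_trans (Nat.cast_nonneg _) hVc
      calc (V.card : ℝ) * (1 - ((3 : ℝ) ^ T.card)⁻¹) ≤
            (3 ^ n * (1 - ((27 : ℝ) ^ s)⁻¹) ^ m) * (1 - ((3 : ℝ) ^ T.card)⁻¹) :=
            mul_le_mul_of_nonneg_right hVc h2
        _ ≤ (3 ^ n * (1 - ((27 : ℝ) ^ s)⁻¹) ^ m) * (1 - ((27 : ℝ) ^ s)⁻¹) :=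
            mul_le_mul_of_nonneg_left (by linarith) h3
        _ = _ := by rw [pow_succ]; ring

/-- **Free unions of level sets of an additive statistic.** -/
theorem main {n s : ℕ} (hs : 1 ≤ s) {G : Type} [AddCommGroup G] [Fintype G]
    (w : Fin n → ZMod 3 → G) (A : Finset (Fin n → ZMod 3)) (hA : Free A)
    (hw : ∀ x y : Fin n → ZMod 3, ∑ i, w i (x i) = ∑ i, w i (y i) → x ∈ A → y ∈ A)
    (hn : Fintype.card G ^ 2 * (6 * s ^ 2) ^ s < n ^ s) :
    (A.card : ℝ) ≤ 3 ^ n * (1 - ((27 : ℝ) ^ s)⁻¹) ^ (n / (6 * s)) := by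
  obtain ⟨V, E, hAV, -, -, hV⟩ := greedy hs w A hA hw hn (n / (6 * s)) (Nat.mul_div_le _ _)
  exact le_trans (by exact_mod_cast card_le_card hAV) hV

end Pool.Agent.AS36
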