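import Mathlib

/-!
# AS36/Sun: the sunflower lemma of Erdos and Rado for three petals
-/

set_option autoImplicit false

namespace Pool.Agent.AS36

open Finset

theorem sun_aux {α : Type} [DecidableEq α] (s : ℕ) : ∀ F : Finset (Finset α),
    (∀ S ∈ F, S.card = s) → s.factorial * 2 ^ s < F.card →
    ∃ A ∈ F, ∃ B ∈ F, ∃ C ∈ F, A ≠ B ∧ A ≠ C ∧ B ≠ C ∧ A ∩ B = A ∩ C ∧ A ∩ B = B ∩ C := by
  induction s with
  | zero =>
    intro F hF h
    exfalso
    have h1 : F ⊆ {∅} := by
      intro S hS
      rw [mem_singleton]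
      exact card_eq_zero.1 (hF S hS)
    have h2 := card_le_card h1
    rw [card_singleton] at h2
    simp at h
    omega
  | succ s ih =>
    intro F hF h
    have hne : ∀ S ∈ F, ∀ T, Disjoint S T → S ≠ T := by
      intro S hS T hd he
      subst he
      rw [disjoint_self_iff_empty] at hd
      have := hF S hS
      rw [hd, card_empty] at this
      omega
    have key : (∃ U : Finset α, U.card ≤ 2 * (s + 1) ∧ ∀ S ∈ F, ∃ x ∈ U, x ∈ S) ∨
        ∃ A ∈ F, ∃ B ∈ F, ∃ C ∈ F, Disjoint A B ∧ Disjoint A C ∧ Disjoint B C := by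
      obtain ⟨A, hA⟩ : F.Nonempty := by
        rw [← card_pos]
        omega
      by_cases hB : ∃ B ∈ F, Disjoint A B
      · obtain ⟨B, hB, hAB⟩ := hB
        by_cases hC : ∃ C ∈ F, Disjoint A C ∧ Disjoint B C
        · obtain ⟨C, hC, hAC, hBC⟩ := hC
          exact Or.inr ⟨A, hA, B, hB, C, hC, hAB, hAC, hBC⟩
        · left
          refine ⟨A ∪ B, ?_, ?_⟩
          · have h1 := card_union_le A B
            rw [hF A hA, hF B hB] at h1
            omega
          · intro S hS
            by_contra hno
            push Not at hno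
            refine hC ⟨S, hS, ?_, ?_⟩
            · rw [disjoint_left]
              exact fun x hx hx' => hno x (mem_union_left _ hx) hx'
            · rw [disjoint_left]
              exact fun x hx hx' => hno x (mem_union_right _ hx) hx'
      · left
        refine ⟨A, by rw [hF A hA]; omega, ?_⟩
        intro S hS
        by_contra hno
        push Not at hno
        refine hB ⟨S, hS, ?_⟩
        rw [disjoint_left]
        exact fun x hx hx' => hno x hx hx'
    rcases key with ⟨U, hU, hmeet⟩ | ⟨A, hA, B, hB, C, hC, hAB, hAC, hBC⟩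
    · obtain ⟨x, hx⟩ : ∃ x, s.factorial * 2 ^ s < (F.filter fun S => x ∈ S).card := by
        by_contra hno
        push Not at hno
        have h1 : F.card ≤ ∑ x ∈ U, (F.filter fun S => x ∈ S).card := by
          have h2 : F ⊆ U.biUnion fun x => F.filter fun S => x ∈ S := by
            intro S hS
            obtain ⟨x, hx, hxS⟩ := hmeet S hS
            rw [mem_biUnion]
            exact ⟨x, hx, mem_filter.2 ⟨hS, hxS⟩⟩
          exact (card_le_card h2).trans card_biUnion_le
        have h3 : ∑ x ∈ U, (F.filter fun S => x ∈ S).card ≤ U.card * (s.factorial * 2 ^ s) := by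
          rw [← smul_eq_mul, ← sum_const]
          exact sum_le_sum fun x _ => hno x
        have h4 : U.card * (s.factorial * 2 ^ s) ≤ 2 * (s + 1) * (s.factorial * 2 ^ s) :=
          Nat.mul_le_mul_right _ hU
        have h5 : (s + 1).factorial * 2 ^ (s + 1) = 2 * (s + 1) * (s.factorial * 2 ^ s) := by
          rw [Nat.factorial_succ, pow_succ]
          ring
        omega
      obtain ⟨G, hG⟩ : ∃ G : Finset (Finset α), G = (F.filter fun S => x ∈ S).image
        fun S => S.erase x := ⟨_, rfl⟩
      have hmem : ∀ S ∈ G, x ∉ S ∧ insert x S ∈ F := by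
        intro S hS
        rw [hG, mem_image] at hS
        obtain ⟨T, hT, rfl⟩ := hS
        rw [mem_filter] at hT
        exact ⟨notMem_erase x T, by rw [insert_erase hT.2]; exact hT.1⟩
      have hcard : G.card = (F.filter fun S => x ∈ S).card := by
        rw [hG]
        refine card_image_of_injOn ?_
        intro S hS T hT he
        have hS' := (mem_filter.1 (mem_coe.1 hS)).2
        have hT' := (mem_filter.1 (mem_coe.1 hT)).2
        have he' : S.erase x = T.erase x := he
        rw [← insert_erase hS', he', insert_erase hT']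
      have hGs : ∀ S ∈ G, S.card = s := by
        intro S hS
        have h1 := hmem S hS
        have h2 := hF _ h1.2
        rw [card_insert_of_notMem h1.1] at h2
        omega
      obtain ⟨A, hA, B, hB, C, hC, nAB, nAC, nBC, e1, e2⟩ := ih G hGs (by rw [hcard]; exact hx)
      have hinj : ∀ S ∈ G, ∀ T ∈ G, S ≠ T → insert x S ≠ insert x T := by
        intro S hS T hT hST he
        apply hST
        rw [← erase_insert (hmem S hS).1, he, erase_insert (hmem T hT).1]
      refine ⟨insert x A, (hmem A hA).2, insert x B, (hmem B hB).2, insert x C, (hmem C hC).2,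
        hinj A hA B hB nAB, hinj A hA C hC nAC, hinj B hB C hC nBC, ?_, ?_⟩
      · rw [← insert_inter_distrib, ← insert_inter_distrib, e1]
      · rw [← insert_inter_distrib, ← insert_inter_distrib, e2]
    · refine ⟨A, hA, B, hB, C, hC, hne A hA B hAB, hne A hA C hAC, hne B hB C hBC, ?_, ?_⟩
      · rw [disjoint_iff_inter_eq_empty.1 hAB, disjoint_iff_inter_eq_empty.1 hAC]
      · rw [disjoint_iff_inter_eq_empty.1 hAB, disjoint_iff_inter_eq_empty.1 hBC]

theorem sunflower {α : Type} [DecidableEq α] (s : ℕ) (F : Finset (Finset α))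
    (hF : ∀ D ∈ F, D.card = s) (h : s.factorial * 2 ^ s < F.card) :
    ∃ K : Finset α, ∃ D0 ∈ F, ∃ D1 ∈ F, ∃ D2 ∈ F,
      D0 ≠ D1 ∧ D0 ≠ D2 ∧ D1 ≠ D2 ∧ D0 ∩ D1 = K ∧ D0 ∩ D2 = K ∧ D1 ∩ D2 = K := by
  obtain ⟨A, hA, B, hB, C, hC, h1, h2, h3, h4, h5⟩ := sun_aux s F hF h
  exact ⟨A ∩ B, A, hA, B, hB, C, hC, h1, h2, h3, rfl, h4.symm, h5.symm⟩

end Pool.Agent.AS36
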