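import Pool.Agent.AS36.Sun

/-!
# Three disjoint sets with the same sum (STUB)

The `s`-subsets of `S` are more than `|H| s! 2 ^ s` (`Nat.pow_le_choose`: `(|S| + 1 - s) ^ s ≤ s! * choose |S| s`, and
`s! ^ 2 * 2 ^ s ≤ (2 s ^ 2) ^ s`), so more than `s! 2 ^ s` of them have the same sum of `v`
(`Finset.exists_lt_card_fiber_of_mul_lt_card_of_maps_to`); `sunflower`; take `D_a \ K`: they have the same number of elements
`s - |K|`, positive because the `D_a` are different sets of the same size, and the same sum.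
-/

set_option autoImplicit false

namespace Pool.Agent.AS36

open Finset

theorem triple {α H : Type} [DecidableEq α] [AddCommGroup H] [Fintype H] (v : α → H)
    (S : Finset α) (s : ℕ) (hs : 1 ≤ s)
    (h : Fintype.card H * (2 * s ^ 2) ^ s < (S.card + 1 - s) ^ s) :
    ∃ D : Fin 3 → Finset α, (∀ a, D a ⊆ S) ∧ (∀ a b, a ≠ b → Disjoint (D a) (D b)) ∧
      (∀ a, (D a).Nonempty) ∧ (∀ a, (D a).card ≤ s) ∧
      ∀ a b, ∑ i ∈ D a, v i = ∑ i ∈ D b, v i := by
  classical
  have h1 : (S.card + 1 - s) ^ s ≤ s.factorial * S.card.choose s := by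
    rw [← Nat.descFactorial_eq_factorial_mul_choose]
    exact Nat.pow_sub_le_descFactorial _ _
  have h2 : s.factorial * s.factorial * 2 ^ s ≤ (2 * s ^ 2) ^ s := by
    have h3 : s.factorial ≤ s ^ s := Nat.factorial_le_pow s
    calc s.factorial * s.factorial * 2 ^ s ≤ s ^ s * s ^ s * 2 ^ s :=
          Nat.mul_le_mul_right _ (Nat.mul_le_mul h3 h3)
      _ = (2 * s ^ 2) ^ s := by
          rw [mul_pow, ← pow_mul, ← pow_add]
          rw [show s + s = 2 * s by ring]
          ring
  have h4 : s.factorial * (Fintype.card H * (s.factorial * 2 ^ s)) <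
      s.factorial * S.card.choose s := by
    calc s.factorial * (Fintype.card H * (s.factorial * 2 ^ s)) =
          Fintype.card H * (s.factorial * s.factorial * 2 ^ s) := by ring
      _ ≤ Fintype.card H * (2 * s ^ 2) ^ s := Nat.mul_le_mul_left _ h2
      _ < _ := h
      _ ≤ _ := h1
  have h5 : Fintype.card H * (s.factorial * 2 ^ s) < S.card.choose s :=
    lt_of_mul_lt_mul_left h4 (Nat.zero_le _)
  have h6 : (univ : Finset H).card * (s.factorial * 2 ^ s) < (powersetCard s S).card := by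
    rw [card_powersetCard, card_univ]
    exact h5
  obtain ⟨y, -, hy⟩ := exists_lt_card_fiber_of_mul_lt_card_of_maps_to
    (f := fun D : Finset α => ∑ i ∈ D, v i) (fun D _ => mem_univ _) h6
  obtain ⟨K, D0, hD0, D1, hD1, D2, hD2, n01, n02, n12, e01, e02, e12⟩ :=
    sunflower s ((powersetCard s S).filter fun D => ∑ i ∈ D, v i = y)
      (fun D hD => (mem_powersetCard.1 (mem_filter.1 hD).1).2) hy
  have hmem : ∀ D, D ∈ ((powersetCard s S).filter fun D => ∑ i ∈ D, v i = y) →
      D ⊆ S ∧ D.card = s ∧ ∑ i ∈ D, v i = y := by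
    intro D hD
    have h7 := mem_filter.1 hD
    have h8 := mem_powersetCard.1 h7.1
    exact ⟨h8.1, h8.2, h7.2⟩
  obtain ⟨a0, b0, c0⟩ := hmem D0 hD0
  obtain ⟨a1, b1, c1⟩ := hmem D1 hD1
  obtain ⟨a2, b2, c2⟩ := hmem D2 hD2
  have k0 : K ⊆ D0 := by rw [← e01]; exact inter_subset_left
  have k1 : K ⊆ D1 := by rw [← e01]; exact inter_subset_right
  have k2 : K ⊆ D2 := by rw [← e02]; exact inter_subset_right
  have hsub : ∀ A B : Finset α, A ∩ B = K → Disjoint (A \ K) (B \ K) := by
    intro A B hAB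
    rw [disjoint_left]
    intro x hx hx'
    rw [mem_sdiff] at hx hx'
    exact hx.2 (by rw [← hAB]; exact mem_inter.2 ⟨hx.1, hx'.1⟩)
  have hne : ∀ A B : Finset α, A ≠ B → A.card = s → B.card = s → K ⊆ B → (A \ K).Nonempty := by
    intro A B hAB hA hB hKB
    rw [nonempty_iff_ne_empty]
    intro he
    rw [sdiff_eq_empty_iff_subset] at he
    exact hAB (eq_of_subset_of_card_le (he.trans hKB) (by omega))
  have hsum : ∀ A : Finset α, K ⊆ A → ∑ i ∈ A, v i = y →
      ∑ i ∈ A \ K, v i = y - ∑ i ∈ K, v i := by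
    intro A hKA hA
    rw [eq_sub_iff_add_eq, sum_sdiff hKA, hA]
  have hc : ∀ A : Finset α, A.card = s → (A \ K).card ≤ s := by
    intro A hA
    rw [← hA]
    exact card_le_card sdiff_subset
  have hS : ∀ A : Finset α, A ⊆ S → A \ K ⊆ S := fun A hA => sdiff_subset.trans hA
  refine ⟨![D0 \ K, D1 \ K, D2 \ K], ?_, ?_, ?_, ?_, ?_⟩
  · intro a
    fin_cases a
    · exact hS D0 a0
    · exact hS D1 a1
    · exact hS D2 a2
  · intro a b hab
    fin_cases a <;> fin_cases b
    · exact absurd rfl hab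
    · exact hsub D0 D1 e01
    · exact hsub D0 D2 e02
    · exact (hsub D0 D1 e01).symm
    · exact absurd rfl hab
    · exact hsub D1 D2 e12
    · exact (hsub D0 D2 e02).symm
    · exact (hsub D1 D2 e12).symm
    · exact absurd rfl hab
  · intro a
    fin_cases a
    · exact hne D0 D1 n01 b0 b1 k1
    · exact hne D1 D0 n01.symm b1 b0 k0
    · exact hne D2 D0 n02.symm b2 b0 k0
  · intro a
    fin_cases a
    · exact hc D0 b0
    · exact hc D1 b1
    · exact hc D2 b2
  · have key : ∀ a : Fin 3, ∑ i ∈ (![D0 \ K, D1 \ K, D2 \ K] : Fin 3 → Finset α) a, v i =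
        y - ∑ i ∈ K, v i := by
      intro a
      fin_cases a
      · exact hsum D0 k0 c0
      · exact hsum D1 k1 c1
      · exact hsum D2 k2 c2
    intro a b
    rw [key a, key b]

end Pool.Agent.AS36
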